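import Pool.Agent.Helper71.LOC.Once2

/-!
MP_618faf_lc: reals which are computed from the slalom of localization forcing by a read-once
procedure: after the digits `s` the slalom is read over a finite set `I s` which is disjoint from all
sets read before; the set `I s` and the next digit may depend on all previous digits. Such a real is
in the ground model, or it computes a Cohen real.
-/

set_option autoImplicit false

namespace Pool.Agent.Results.MP_618faf_lc.AdaptiveWindows

open Pool.Agent.Helper71.LOC

/-- let the real `r = dig φ S` be computed from the slalom `S` by `r j = φ (r 0, …, r (j - 1)) S`,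
where `φ s S` depends on `S` only over the finite set `I s`, and `I s`, `I t` are disjoint if `s` is a
proper initial segment of `t` (no coordinate is read twice). There is a Borel function `c` such that
every condition `p` has an extension `q` which decides `r` (all slaloms through `q` give the same real
`x`), or for every dense set `D` of finite `0`-`1` sequences `p` has an extension `q` and there is
`σ ∈ D` such that `q` decides an initial segment `s` of `r` and `σ` is an initial segment of `c x` for
every `x` with initial segment `s`. So localization forcing forces: `r` is in the ground model or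
`c r` is a Cohen real over it. -/
theorem result (I : List ℕ → Finset ℕ) (hI : ∀ s t, s <+: t → s ≠ t → Disjoint (I s) (I t))
    (φ : List ℕ → (ℕ → Finset ℕ) → ℕ)
    (hφ : ∀ s S S', (∀ n ∈ I s, S n = S' n) → φ s S = φ s S') :
    ∃ c : (ℕ → ℕ) → ℕ → Bool, Measurable c ∧ ∀ p : Cond,
      (∃ q, Cond.Le q p ∧ ∃ x : ℕ → ℕ, ∀ S, Thr q S → dig φ S = x) ∨
      ∀ D : Set (List Bool), (∀ τ, ∃ σ ∈ D, τ <+: σ) →
        ∃ q, Cond.Le q p ∧ ∃ σ ∈ D, ∃ s : List ℕ, (∀ S, Thr q S → pre φ S s.length = s) ∧
          ∀ x : ℕ → ℕ, (List.range s.length).map x = s →
            ∀ (i : ℕ) (hi : i < σ.length), σ[i] = c x i :=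
  once I hI φ hφ

end Pool.Agent.Results.MP_618faf_lc.AdaptiveWindows
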