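import Pool.Agent.Helper71.LOC.Main3

/-!
MP_618faf_lc: reals `r 0, r 1, …` of the extension by localization forcing, `r j` depending on the
generic slalom only over `I j`, where each `I j` meets only finitely many of the other `I k`: almost
all of them are in the ground model, or the sequence computes a Cohen real.
-/

set_option autoImplicit false

namespace Pool.Agent.Results.MP_618faf_lc.WindowedReals

open Pool.Agent.Helper71.LOC

/-- let `I 0, I 1, …` be sets of natural numbers such that each `I j` is disjoint from `I k` for all
but finitely many `k`, and let `r j` be a name for a real (an element of `ℕ → ℕ`; `N j m` is the forcing relation of the name for its value at `m`) which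
depends on the generic slalom only over `I j`. Then either every condition `p` has an extension `q`
which decides all values of all `r j` with `j` outside a finite set `T` (so this part of the sequence
is in `V`), or there is a Borel function `c` from sequences of reals to `0`-`1` sequences such that
`c r` is forced to be a Cohen real over `V`: for every condition `p` and every dense set `D` of finite
`0`-`1` sequences there are an extension `q` of `p` and `σ ∈ D` such that `q` decides the values of
`r` on a set `u` of coordinates, and `σ` is an initial segment of `c r'` for every `r'` with these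
values on `u` -/
theorem result (I : ℕ → Set ℕ) (hI : ∀ j, ∃ m, ∀ k, m ≤ k → Disjoint (I j) (I k))
    (N : ℕ → ℕ → Cond → ℕ → Prop) (hN : ∀ j m, IsName (N j m))
    (hW : ∀ j m, Over (I j) (N j m)) :
    (∀ p : Cond, ∃ q, Cond.Le q p ∧ ∃ T : Finset ℕ, ∀ j, j ∉ T → ∀ m, ∃ a, N j m q a) ∨
    ∃ c : (ℕ → ℕ → ℕ) → ℕ → Bool, Measurable c ∧
      ∀ (p : Cond) (D : Set (List Bool)), (∀ τ, ∃ σ ∈ D, τ <+: σ) →
        ∃ q : Cond, q.Le p ∧ ∃ (σ : List Bool) (u : Set (ℕ × ℕ)) (ρ : ℕ → ℕ → ℕ), σ ∈ D ∧
          (∀ x ∈ u, N x.1 x.2 q (ρ x.1 x.2)) ∧
          ∀ r' : ℕ → ℕ → ℕ, (∀ x ∈ u, r' x.1 x.2 = ρ x.1 x.2) →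
            ∀ (i : ℕ) (hi : i < σ.length), σ[i] = c r' i :=
  main3 I hI N hN hW

end Pool.Agent.Results.MP_618faf_lc.WindowedReals
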